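import Pool.Agent.NBT.StmtsA

/-!
Squad NBT, row MNX: minimal subfamilies, without Zorn.
-/

set_option autoImplicit false

open Matrix Filter Topology

namespace Pool.Agent.NBT.H82

open Pool.Agent.PFS Pool.Agent.PFJ Pool.Agent.NBT

section

variable {n K : ℕ} {C : Set (V n)} {Γ Γ₀ : Subgroup (GL (Fin n) ℝ)}

/-- the members of `T` whose orbit avoids `U` -/
def Av (Γ₀ : Subgroup (GL (Fin n) ℝ)) (U : Set (Fin K → V n)) (T : (Fin K → V n) → Prop)
    (w : Fin K → V n) : Prop :=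
  T w ∧ ∀ g ∈ Γ₀, ∀ r : Fin K → ℝ, (∀ i, 0 < r i) → (fun i => r i • act g (w i)) ∉ U

theorem fam_av {U : Set (Fin K → V n)} (hU : IsOpen U) {T : (Fin K → V n) → Prop}
    (hT : FAM C Γ Γ₀ T) : FAM C Γ Γ₀ (Av Γ₀ U T) where
  sub := hT.sub
  pes := fun w hw => hT.pes w hw.1
  inv := by
    intro w hw g hg
    refine ⟨hT.inv w hw.1 g hg, ?_⟩
    intro g' hg' r hr
    have h1 := hw.2 (g' * g) (Γ₀.mul_mem hg' hg) r hr
    have h2 : (fun i => r i • act (g' * g) (w i)) = fun i => r i • act g' (act g (w i)) := by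
      funext i
      rw [CC.act_mul]
    rw [h2] at h1
    exact h1
  scl := by
    intro w hw r hr
    refine ⟨hT.scl w hw.1 r hr, ?_⟩
    intro g hg r' hr'
    have h1 := hw.2 g hg (fun i => r' i * r i) (fun i => mul_pos (hr' i) (hr i))
    have h2 : (fun i => (r' i * r i) • act g (w i)) = fun i => r' i • act g (r i • w i) := by
      funext i
      rw [CC.act_smul, smul_smul]
    rw [h2] at h1
    exact h1
  cld := by
    intro x w hx hlim hC
    refine ⟨hT.cld x w (fun m => (hx m).1) hlim hC, ?_⟩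
    intro g hg r hr hmem
    have h1 : Tendsto (fun m => fun i => r i • act g (x m i)) atTop
        (𝓝 (fun i => r i • act g (w i))) := by
      rw [tendsto_pi_nhds]
      intro i
      exact (((CC.act_continuous g).tendsto (w i)).comp (hlim i)).const_smul (r i)
    have h2 : ∀ᶠ m in atTop, (fun i => r i • act g (x m i)) ∈ U :=
      h1.eventually (hU.mem_nhds hmem)
    obtain ⟨m, hm⟩ := h2.exists
    exact (hx m).2 g hg r hr hm
  cpt := fun x hx => hT.cpt x fun m => (hx m).1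

open scoped Classical in
/-- the decreasing sequence of families -/
noncomputable def Ts (Γ₀ : Subgroup (GL (Fin n) ℝ)) (U : ℕ → Set (Fin K → V n))
    (T0 : (Fin K → V n) → Prop) : ℕ → (Fin K → V n) → Prop
  | 0 => T0
  | j + 1 => if ∃ w, Av Γ₀ (U j) (Ts Γ₀ U T0 j) w then Av Γ₀ (U j) (Ts Γ₀ U T0 j)
      else Ts Γ₀ U T0 j

theorem ts_pos {U : ℕ → Set (Fin K → V n)} {T0 : (Fin K → V n) → Prop} {j : ℕ}
    (h : ∃ w, Av Γ₀ (U j) (Ts Γ₀ U T0 j) w) :
    Ts Γ₀ U T0 (j + 1) = Av Γ₀ (U j) (Ts Γ₀ U T0 j) := by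
  rw [Ts, if_pos h]

theorem ts_neg {U : ℕ → Set (Fin K → V n)} {T0 : (Fin K → V n) → Prop} {j : ℕ}
    (h : ¬ ∃ w, Av Γ₀ (U j) (Ts Γ₀ U T0 j) w) :
    Ts Γ₀ U T0 (j + 1) = Ts Γ₀ U T0 j := by
  rw [Ts, if_neg h]

theorem ts_fam {U : ℕ → Set (Fin K → V n)} (hU : ∀ j, IsOpen (U j))
    {T0 : (Fin K → V n) → Prop} (hT : FAM C Γ Γ₀ T0) (hne : ∃ w, T0 w) :
    ∀ j, FAM C Γ Γ₀ (Ts Γ₀ U T0 j) ∧ ∃ w, Ts Γ₀ U T0 j w := by
  intro j
  induction j with
  | zero => exact ⟨hT, hne⟩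
  | succ j ih =>
    by_cases h : ∃ w, Av Γ₀ (U j) (Ts Γ₀ U T0 j) w
    · rw [ts_pos h]
      exact ⟨fam_av (hU j) ih.1, h⟩
    · rw [ts_neg h]
      exact ih

theorem ts_step {U : ℕ → Set (Fin K → V n)} {T0 : (Fin K → V n) → Prop} (j : ℕ)
    (w : Fin K → V n) (h : Ts Γ₀ U T0 (j + 1) w) : Ts Γ₀ U T0 j w := by
  by_cases h' : ∃ w, Av Γ₀ (U j) (Ts Γ₀ U T0 j) w
  · rw [ts_pos h'] at h
    exact h.1
  · rw [ts_neg h'] at h
    exact h

theorem ts_le {U : ℕ → Set (Fin K → V n)} {T0 : (Fin K → V n) → Prop} {j l : ℕ} (hjl : j ≤ l)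
    (w : Fin K → V n) (h : Ts Γ₀ U T0 l w) : Ts Γ₀ U T0 j w := by
  induction hjl with
  | refl => exact h
  | step _ ih => exact ih (ts_step _ w h)

end

/-- **MNX**. -/
theorem mnx : MnxStmt := by
  intro n C Γ Γ₀ K hCC hK T0 hT0 hne
  obtain ⟨b, hbc, -, hb⟩ := TopologicalSpace.exists_countable_basis (Fin K → V n)
  obtain ⟨U, hUb⟩ := (hbc.insert ∅).exists_eq_range (Set.insert_nonempty _ _)
  have hU : ∀ j, IsOpen (U j) := by
    intro j
    have hj : U j ∈ insert ∅ b := by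
      rw [hUb]
      exact Set.mem_range_self j
    rcases hj with hj | hj
    · rw [hj]
      exact isOpen_empty
    · exact hb.isOpen hj
  have hfam := ts_fam (C := C) (Γ := Γ) (Γ₀ := Γ₀) hU hT0 hne
  have hT : FAM C Γ Γ₀ (fun w => ∀ j, Ts Γ₀ U T0 j w) := by
    refine ⟨hT0.sub, ?_, ?_, ?_, ?_, ?_⟩
    · intro w hw
      exact hT0.pes w (hw 0)
    · intro w hw g hg j
      exact (hfam j).1.inv w (hw j) g hg
    · intro w hw r hr j
      exact (hfam j).1.scl w (hw j) r hr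
    · intro x w hx hlim hC j
      exact (hfam j).1.cld x w (fun m => hx m j) hlim hC
    · intro x hx
      exact hT0.cpt x fun m => hx m 0
  refine ⟨fun w => ∀ j, Ts Γ₀ U T0 j w, hT, ?_, fun w hw => hw 0, ?_⟩
  · intro T' hT' hsub hne' w hw
    by_contra hnot
    have h1 : w ∉ closure {z | T' z} := by
      intro hcl
      rw [mem_closure_iff_seq_limit] at hcl
      obtain ⟨x, hx, hlim⟩ := hcl
      refine hnot (hT'.cld x w hx ?_ (PES.sum_mem (hT.pes w hw).1))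
      intro i
      exact (tendsto_pi_nhds.1 hlim) i
    have h2 : (closure {z | T' z})ᶜ ∈ 𝓝 w := isClosed_closure.isOpen_compl.mem_nhds h1
    obtain ⟨u, hub, hwu, hsubu⟩ := hb.mem_nhds_iff.1 h2
    have h3 : u ∈ insert ∅ b := Or.inr hub
    rw [hUb] at h3
    obtain ⟨j, hj⟩ := h3
    have h4 : ∀ z, T' z → Av Γ₀ (U j) (Ts Γ₀ U T0 j) z := by
      intro z hz
      refine ⟨hsub z hz j, ?_⟩
      intro g hg r hr hmem
      have h5 : T' (fun i => r i • act g (z i)) := hT'.scl _ (hT'.inv z hz g hg) r hr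
      rw [hj] at hmem
      exact hsubu hmem (subset_closure h5)
    obtain ⟨z, hz⟩ := hne'
    have h6 : Ts Γ₀ U T0 (j + 1) w := hw (j + 1)
    rw [ts_pos ⟨z, h4 z hz⟩] at h6
    have h7 := h6.2 1 Γ₀.one_mem (fun _ => 1) (fun _ => one_pos)
    have h8 : (fun i => (1 : ℝ) • act (1 : GL (Fin n) ℝ) (w i)) = w := by
      funext i
      rw [CC.act_one, one_smul]
    rw [h8, hj] at h7
    exact h7 hwu
  · choose x hx using fun j => (hfam j).2
    obtain ⟨φ, g, s, p, hφ, hg, hs, hp, hlim⟩ :=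
      hT0.cpt x fun m => ts_le (Nat.zero_le m) (x m) (hx m)
    have hy : ∀ m j, j ≤ m → Ts Γ₀ U T0 j (fun i => s m • act (g m) (x (φ m) i)) := by
      intro m j hj
      have h1 : Ts Γ₀ U T0 j (x (φ m)) :=
        ts_le (hj.trans (hφ.id_le m)) _ (hx (φ m))
      exact (hfam j).1.scl _ ((hfam j).1.inv _ h1 (g m) (hg m)) (fun _ => s m) fun _ => hs m
    have hsum : Tendsto (fun m => ∑ i, s m • act (g m) (x (φ m) i)) atTop (𝓝 p) := by
      refine hlim.congr fun m => ?_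
      rw [CC.act_sum, Finset.smul_sum]
    obtain ⟨ψ, w, hψ, hw, hwp, -⟩ := Pool.Agent.PFS.H37.lpsF n C Γ hCC (Fin K)
      (by rw [Fintype.card_fin]; exact hK) (fun m i => s m • act (g m) (x (φ m) i)) p
      (fun m => hT0.pes _ (hy m 0 (Nat.zero_le m))) hp hsum
    refine ⟨w, ?_⟩
    intro j
    refine (hfam j).1.cld (fun m i => s (ψ (m + j)) • act (g (ψ (m + j))) (x (φ (ψ (m + j))) i)) w
      ?_ ?_ (by rw [hwp]; exact hp)
    · intro m
      exact hy (ψ (m + j)) j ((Nat.le_add_left j m).trans (hψ.id_le (m + j)))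
    · intro i
      exact (hw i).comp (tendsto_add_atTop_nat j)

end Pool.Agent.NBT.H82
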